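import Pool.Agent.Helper63.D4.Sheet
import Pool.Agent.Helper2.PL.PEX

/-!
# The choice of the routing matrix with deficits (MP_fcb106_co, row PEX4)
-/

set_option autoImplicit false

namespace Pool.Agent.Helper2.D4

open Finset Pool.Agent.Helper33.DP Pool.Agent.Helper63.D4
open Pool.Agent.Helper2.PL (ZP ZP_convex mix)

/-- The tangent inequality. -/
theorem tan_le {t c s e : ℝ} (ht : 0 ≤ t) (hc : 0 < c) (hs : 0 < s) (he : 0 ≤ e) :
    t / (t * s + e) ≤ c ^ 2 * s / (c * s + e) ^ 2 + e / (c * s + e) ^ 2 * t := by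
  have h1 : 0 < c * s + e := by positivity
  have h2 : 0 < (c * s + e) ^ 2 := by positivity
  have h3 : c ^ 2 * s / (c * s + e) ^ 2 + e / (c * s + e) ^ 2 * t
      = (c ^ 2 * s + e * t) / (c * s + e) ^ 2 := by ring
  rw [h3]
  rcases ht.eq_or_lt with h0 | h0
  · rw [← h0]; simp only [zero_div]; positivity
  · have h4 : 0 < t * s + e := by positivity
    rw [div_le_div_iff₀ h4 h2]
    have h5 : (c ^ 2 * s + e * t) * (t * s + e) - t * (c * s + e) ^ 2 = e * s * (t - c) ^ 2 := by
      ring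
    have h6 : 0 ≤ e * s * (t - c) ^ 2 := by positivity
    linarith

open Classical in
/-- The potential of a perfect matching. -/
noncomputable def pph {w : ℕ} (G₂ : Gr w) (s e : Fin w → ℝ) (σ : Equiv.Perm (Fin w))
    (P : Fin w → Fin w → ℝ) : ℝ :=
  if PM G₂ σ then ∑ i, (P i (σ i) * s (σ i) + e (σ i))⁻¹ else 0

theorem pph_convex {w : ℕ} (G₂ : Gr w) (s e : Fin w → ℝ) (hs : ∀ b, 0 < s b)
    (he : ∀ b, 0 ≤ e b) {c : ℝ} (hc : 0 < c) (σ : Equiv.Perm (Fin w)) :
    ConvexOn ℝ (ZP G₂ c) (pph G₂ s e σ) := by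
  refine ⟨ZP_convex G₂ c, ?_⟩
  intro P hP Q hQ u v hu hv huv
  by_cases hσ : PM G₂ σ
  · simp only [pph, if_pos hσ, smul_eq_mul, mul_sum, ← sum_add_distrib]
    refine sum_le_sum fun i _ => ?_
    have e1 : (u • P + v • Q) i (σ i) * s (σ i) + e (σ i) =
        u * (P i (σ i) * s (σ i) + e (σ i)) + v * (Q i (σ i) * s (σ i) + e (σ i)) := by
      have e2 : u * (P i (σ i) * s (σ i) + e (σ i)) + v * (Q i (σ i) * s (σ i) + e (σ i)) =
          (u * P i (σ i) + v * Q i (σ i)) * s (σ i) + (u + v) * e (σ i) := by ring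
      rw [e2, huv, one_mul]
      rfl
    rw [e1]
    exact Pool.Agent.Helper14.PL.inv_convex
      (add_pos_of_pos_of_nonneg (mul_pos (lt_of_lt_of_le hc (hP.2 _ _ (hσ i))) (hs _)) (he _))
      (add_pos_of_pos_of_nonneg (mul_pos (lt_of_lt_of_le hc (hQ.2 _ _ (hσ i))) (hs _)) (he _))
      hu hv huv
  · simp [pph, if_neg hσ]

/-- The value of one column of a doubly stochastic matrix against a mixture. -/
theorem col_le {w : ℕ} {G₂ : Gr w} {s e k : ℝ} {n : ℕ} (b : Fin w) (hs : 0 < s) (he : 0 ≤ e)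
    (hn : (univ.filter (fun x => (x, b) ∈ G₂)).card ≤ n) (hk : 0 ≤ k) (hk1 : k < 1)
    {D P : Fin w → Fin w → ℝ} (hD : DS G₂ D)
    (hpos : ∀ a b, (a, b) ∈ G₂ → 0 < P a b) (hP : ∀ a b, (1 - k) * D a b ≤ P a b) :
    (∑ a, D a b * (P a b * s + e)⁻¹) * (1 - k) ≤ n / (s + n * e) := by
  classical
  have h1k : 0 < 1 - k := by linarith
  have hn0 : 0 < n := by
    rcases Nat.eq_zero_or_pos n with h0 | h0
    · exfalso
      have h1 : (univ.filter (fun x => (x, b) ∈ G₂)).card = 0 := by omega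
      rw [Finset.card_eq_zero] at h1
      have h2 := hD.col b
      have h3 : ∑ a, D a b = 0 := by
        refine Finset.sum_eq_zero fun a _ => hD.supp a b fun hab => ?_
        have : a ∈ univ.filter (fun x => (x, b) ∈ G₂) := by simp [hab]
        rw [h1] at this
        simp at this
      rw [h3] at h2
      exact zero_ne_one h2
    · exact h0
  have hn1 : (0 : ℝ) < n := by exact_mod_cast hn0
  set c : ℝ := 1 / n with hc
  have hc0 : 0 < c := by rw [hc]; positivity
  set A : ℝ := c ^ 2 * s / (c * s + e) ^ 2 with hA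
  set B : ℝ := e / (c * s + e) ^ 2 with hB
  have hcs : 0 < c * s + e := by positivity
  have hA0 : 0 ≤ A := by rw [hA]; positivity
  have hB0 : 0 ≤ B := by rw [hB]; positivity
  rw [sum_mul]
  calc ∑ a, D a b * (P a b * s + e)⁻¹ * (1 - k)
      ≤ ∑ a, ((if (a, b) ∈ G₂ then A else 0) + B * D a b) := by
        refine sum_le_sum fun a _ => ?_
        split_ifs with hab
        · have hPp := hpos a b hab
          have hDn := hD.nonneg a b
          have ht : 0 ≤ (1 - k) * D a b := mul_nonneg h1k.le hDn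
          have h3 : D a b * (P a b * s + e)⁻¹ * (1 - k) ≤
              ((1 - k) * D a b) / (((1 - k) * D a b) * s + e) := by
            rcases ht.eq_or_lt with h0 | h0
            · rw [← h0, zero_div]
              have : D a b = 0 := by
                rcases mul_eq_zero.1 h0.symm with h | h
                · exact absurd h h1k.ne'
                · exact h
              rw [this, zero_mul, zero_mul]
            · have h4 : 0 < ((1 - k) * D a b) * s + e := by positivity
              have h5 : (P a b * s + e)⁻¹ ≤ (((1 - k) * D a b) * s + e)⁻¹ := by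
                apply inv_anti₀ h4
                have := mul_le_mul_of_nonneg_right (hP a b) hs.le
                linarith
              calc D a b * (P a b * s + e)⁻¹ * (1 - k)
                  = ((1 - k) * D a b) * (P a b * s + e)⁻¹ := by ring
                _ ≤ ((1 - k) * D a b) * (((1 - k) * D a b) * s + e)⁻¹ :=
                    mul_le_mul_of_nonneg_left h5 ht
                _ = _ := by rw [div_eq_mul_inv]
          have h6 := tan_le ht hc0 hs he
          have h7 : B * ((1 - k) * D a b) ≤ B * D a b := by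
            apply mul_le_mul_of_nonneg_left _ hB0
            have : k * D a b ≥ 0 := mul_nonneg hk hDn
            linarith
          rw [← hA, ← hB] at h6
          linarith
        · rw [hD.supp a b hab, zero_mul, zero_mul, mul_zero, add_zero]
    _ = (univ.filter (fun x => (x, b) ∈ G₂)).card * A + B := by
        rw [sum_add_distrib, ← mul_sum, hD.col b, mul_one, ← sum_filter, sum_const, nsmul_eq_mul]
    _ ≤ n * A + B := by
        have : ((univ.filter (fun x => (x, b) ∈ G₂)).card : ℝ) ≤ n := by exact_mod_cast hn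
        have := mul_le_mul_of_nonneg_right this hA0
        linarith
    _ = n / (s + n * e) := by
        rw [hA, hB, hc]
        have h1 : s + n * e ≠ 0 := by positivity
        have h2 : 1 / (n : ℝ) * s + e ≠ 0 := by positivity
        field_simp

/-- The value of a doubly stochastic matrix against a mixture. -/
theorem val_le {w : ℕ} {G₂ : Gr w} {s e : Fin w → ℝ} {n : Fin w → ℕ} {β k : ℝ}
    (hs : ∀ b, 0 < s b) (he : ∀ b, 0 ≤ e b)
    (hn : ∀ b, (univ.filter (fun x => (x, b) ∈ G₂)).card ≤ n b)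
    (hsum : ∑ b, (n b : ℝ) / (s b + n b * e b) ≤ β) (hk : 0 ≤ k) (hk1 : k < 1)
    {D P : Fin w → Fin w → ℝ} (hD : DS G₂ D)
    (hpos : ∀ a b, (a, b) ∈ G₂ → 0 < P a b) (hP : ∀ a b, (1 - k) * D a b ≤ P a b) :
    ∑ a, ∑ b, D a b * (P a b * s b + e b)⁻¹ ≤ β / (1 - k) := by
  have h1k : 0 < 1 - k := by linarith
  rw [le_div_iff₀ h1k]
  refine le_trans ?_ hsum
  rw [sum_comm, sum_mul]
  exact sum_le_sum fun b _ => col_le b (hs b) (he b) (hn b) hk hk1 hD hpos hP

/-- The choice of the routing matrix, with a free parameter. -/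
theorem pex (hML : ST_ML) (h3 : ST_DS3) (h4 : ST_DS4) (w : ℕ) (G₂ : Gr w) (s e : Fin w → ℝ)
    (n : Fin w → ℕ) (β β' k : ℝ) (hw : 1 ≤ w) (hG : IsCore G₂) (hs : ∀ b, 0 < s b)
    (he : ∀ b, 0 ≤ e b) (hn : ∀ b, (univ.filter (fun x => (x, b) ∈ G₂)).card ≤ n b)
    (hsum : ∑ b, (n b : ℝ) / (s b + n b * e b) ≤ β) (hk : 0 < k) (hk1 : k < 1)
    (hβ : β / (1 - k) < β') :
    ∃ P, DS G₂ P ∧ Bdd G₂ (fun x b => P x b * s b + e b) β' := by
  classical
  have h1k : 0 < 1 - k := by linarith
  have hw0 : (0 : ℝ) < w := by exact_mod_cast hw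
  have hc : 0 < k / (w : ℝ) ^ 2 := by positivity
  have hβ0 : 0 ≤ β := le_trans (sum_nonneg fun b _ => by
    have := hs b
    have := he b
    positivity) hsum
  obtain ⟨D0, hD0, -⟩ := h4 w G₂ hw hG
  obtain ⟨P, hP, hφ⟩ := hML (Equiv.Perm (Fin w)) (Fin w → Fin w → ℝ) (ZP G₂ (k / (w : ℝ) ^ 2))
    (pph G₂ s e) (β / (1 - k)) β' (ZP_convex G₂ _) (pph_convex G₂ s e hs he hc) hβ (by
      intro θ hθ hθ1
      obtain ⟨D, hD, hf⟩ := Pool.Agent.Helper14.PL.norm_DS h3 G₂ ⟨D0, hD0⟩
        (fun σ => if PM G₂ σ then θ σ else 0)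
        (fun σ => by split_ifs; exact hθ _; exact le_rfl) (fun σ hσ => if_neg hσ)
      obtain ⟨P, hP, hPl, hPD⟩ := mix h4 hw hG hD hk hk1
      refine ⟨P, ⟨hP, hPl⟩, ?_⟩
      have hv := val_le hs he hn hsum hk.le hk1 hD
        (fun a b h => lt_of_lt_of_le hc (hPl a b h)) hPD
      have s1 : ∑ σ, θ σ * pph G₂ s e σ P = (∑ σ, if PM G₂ σ then θ σ else 0) *
          ∑ a, ∑ b, D a b * (P a b * s b + e b)⁻¹ := by
        rw [← hf (fun a b => (P a b * s b + e b)⁻¹)]
        refine sum_congr rfl fun σ _ => ?_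
        by_cases hσ : PM G₂ σ
        · simp only [pph, if_pos hσ]
        · simp only [pph, if_neg hσ, mul_zero, zero_mul]
      rw [s1]
      have t1 : (∑ σ, if PM G₂ σ then θ σ else 0) ≤ 1 := by
        rw [← hθ1]
        exact sum_le_sum fun σ _ => by split_ifs; exact le_rfl; exact hθ _
      have t3 : 0 ≤ (∑ σ, if PM G₂ σ then θ σ else 0) :=
        sum_nonneg fun σ _ => by split_ifs; exact hθ _; exact le_rfl
      have hcc : 0 ≤ β / (1 - k) := div_nonneg hβ0 h1k.le
      calc (∑ σ, if PM G₂ σ then θ σ else 0) * ∑ a, ∑ b, D a b * (P a b * s b + e b)⁻¹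
          ≤ (∑ σ, if PM G₂ σ then θ σ else 0) * (β / (1 - k)) :=
            mul_le_mul_of_nonneg_left hv t3
        _ ≤ 1 * (β / (1 - k)) := mul_le_mul_of_nonneg_right t1 hcc
        _ = β / (1 - k) := one_mul _)
  refine ⟨P, hP.1, ?_, ?_⟩
  · intro x b h
    exact add_pos_of_pos_of_nonneg (mul_pos (lt_of_lt_of_le hc (hP.2 x b h)) (hs b)) (he b)
  · intro σ hσ
    have := hφ σ
    simp only [pph, if_pos hσ] at this
    exact this.le

/-- **ROW PEX4** -/
theorem PEX4 (hML : ST_ML) (h3 : ST_DS3) (h4 : ST_DS4) : ST_PEX4 := by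
  intro w G₂ s e n β β' hw hG hs he hn hsum hβ
  have hβ0 : 0 ≤ β := le_trans (sum_nonneg fun b _ => by
    have := hs b
    have := he b
    positivity) hsum
  have hβ'0 : 0 < β' := lt_of_le_of_lt hβ0 hβ
  obtain ⟨k, hk⟩ : ∃ k : ℝ, k = (β' - β) / (2 * β') := ⟨_, rfl⟩
  have hk0 : 0 < k := by rw [hk]; exact div_pos (by linarith) (by linarith)
  have hkβ : k * β' = (β' - β) / 2 := by rw [hk]; field_simp
  have hk1 : k < 1 := by
    rw [hk, div_lt_one (by linarith)]; linarith
  have h1k : 0 < 1 - k := by linarith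
  have hβk : β / (1 - k) < β' := by
    rw [div_lt_iff₀ h1k]; nlinarith
  exact pex hML h3 h4 w G₂ s e n β β' k hw hG hs he hn hsum hk0 hk1 hβk

end Pool.Agent.Helper2.D4
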